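import Mathlib

open Finset

namespace H11.GRW

section Defs

variable {V : Type} [DecidableEq V] (G : SimpleGraph V) [G.LocallyFinite]

/-- Neighbours `w` of `v` such that the edge `vw` has not been crossed (`E` lists the crossed
edges). -/
def fresh (v : V) (E : List (Sym2 V)) : Finset V :=
  (G.neighborFinset v).filter fun w => s(v, w) ∉ E

/-- The set from which the greedy random walk at `v` picks its next vertex uniformly. -/
def next (v : V) (E : List (Sym2 V)) : Finset V :=
  if (fresh G v E).Nonempty then fresh G v E else G.neighborFinset v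

/-- Probability that the walk, now at `v` with crossed edges `E`, visits `o` at one of the next
`n` steps. -/
noncomputable def ret (o : V) : ℕ → V → List (Sym2 V) → ℝ
  | 0, _, _ => 0
  | n + 1, v, E =>
    (∑ w ∈ next G v E, if w = o then 1 else ret o n w (s(v, w) :: E)) / (next G v E).card

/-- `Pr(B)`: the probability that the walk started at `o` returns to `o` at some time `t ≥ 1`. -/
noncomputable def prB (o : V) : ℝ := ⨆ n : ℕ, ret G o n o []

end Defs

variable {V : Type} [DecidableEq V] (G : SimpleGraph V) [G.LocallyFinite]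

theorem ret_bounds (o : V) (n : ℕ) : ∀ v E, 0 ≤ ret G o n v E ∧ ret G o n v E ≤ 1 := by
  induction n with
  | zero => intro v E; simp [ret]
  | succ n ih =>
    intro v E
    simp only [ret]
    refine ⟨div_nonneg (sum_nonneg fun w _ => ?_) (Nat.cast_nonneg _),
      div_le_one_of_le₀ ?_ (Nat.cast_nonneg _)⟩
    · split_ifs
      · exact zero_le_one
      · exact (ih _ _).1
    · refine (sum_le_card_nsmul _ _ 1 fun w _ => ?_).trans (by simp)
      split_ifs
      · exact le_rfl
      · exact (ih _ _).2

theorem ret_pos (o : V) (n : ℕ) (v w : V) (E : List (Sym2 V)) (hw : w ∈ fresh G v E)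
    (h : w = o ∨ 0 < ret G o n w (s(v, w) :: E)) : 0 < ret G o (n + 1) v E := by
  have hn : next G v E = fresh G v E := if_pos ⟨w, hw⟩
  simp only [ret, hn]
  refine div_pos (sum_pos' (fun x _ => ?_) ⟨w, hw, ?_⟩) (by exact_mod_cast card_pos.2 ⟨w, hw⟩)
  · split_ifs
    · exact zero_le_one
    · exact (ret_bounds G o n _ _).1
  · split_ifs with h1
    · exact one_pos
    · exact h.resolve_left h1

def used (x : V) (E : List (Sym2 V)) : ℕ := ((G.neighborFinset x).filter fun y => s(x, y) ∈ E).card

theorem used_cons (v w x : V) (E : List (Sym2 V)) (h : G.Adj v w) (hE : s(v, w) ∉ E) :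
    used G x (s(v, w) :: E) = used G x E + if x = v ∨ x = w then 1 else 0 := by
  unfold used
  by_cases h1 : x = v
  · subst h1
    rw [if_pos (Or.inl rfl), ← card_insert_of_notMem (a := w) (by simp [hE])]
    congr 1
    ext y
    simp only [mem_filter, List.mem_cons, mem_insert, SimpleGraph.mem_neighborFinset,
      Sym2.congr_right]
    constructor
    · rintro ⟨a, b | b⟩
      · exact Or.inl b
      · exact Or.inr ⟨a, b⟩
    · rintro (rfl | ⟨a, b⟩)
      · exact ⟨h, Or.inl rfl⟩
      · exact ⟨a, Or.inr b⟩
  by_cases h2 : x = w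
  · subst h2
    have hE' : s(x, v) ∉ E := by rwa [Sym2.eq_swap]
    rw [if_pos (Or.inr rfl), ← card_insert_of_notMem (a := v) (by simp [hE'])]
    congr 1
    ext y
    rw [Sym2.eq_swap (a := v)]
    simp only [mem_filter, List.mem_cons, mem_insert, SimpleGraph.mem_neighborFinset,
      Sym2.congr_right]
    constructor
    · rintro ⟨a, b | b⟩
      · exact Or.inl b
      · exact Or.inr ⟨a, b⟩
    · rintro (rfl | ⟨a, b⟩)
      · exact ⟨h.symm, Or.inl rfl⟩
      · exact ⟨a, Or.inr b⟩
  · rw [if_neg (by tauto), add_zero]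
    congr 1
    ext y
    simp [Sym2.eq_iff, h1, h2]

theorem ret_zero (o b : V) (S : Set V) (ho : o ∉ S) (hdeg : ∀ x, Even (G.neighborFinset x).card)
    (hS : ∀ x ∈ S, ∀ y, G.Adj x y → y ∈ S ∨ (x = b ∧ y = o)) (n : ℕ) :
    ∀ v E, v ∈ S → s(o, b) ∈ E → (∀ x ∈ S, Odd (used G x E) ↔ x = v) → ret G o n v E = 0 := by
  induction n with
  | zero => intro v E _ _ _; simp [ret]
  | succ n ih =>
    intro v E hv hb hp
    have hne : (fresh G v E).Nonempty := by
      by_contra hcon
      rw [not_nonempty_iff_eq_empty, fresh, filter_eq_empty_iff] at hcon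
      have h1 : used G v E = (G.neighborFinset v).card := by
        unfold used
        rw [filter_true_of_mem fun y hy => not_not.1 (hcon hy)]
      have h2 := (hp v hv).2 rfl
      rw [h1] at h2
      exact (Nat.not_odd_iff_even.2 (hdeg v)) h2
    have hn : next G v E = fresh G v E := if_pos hne
    simp only [ret, hn]
    rw [sum_eq_zero, zero_div]
    intro w hw
    rw [fresh, mem_filter, SimpleGraph.mem_neighborFinset] at hw
    have hwS : w ∈ S := by
      rcases hS v hv w hw.1 with h | ⟨rfl, rfl⟩
      · exact h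
      · exact absurd (by rwa [Sym2.eq_swap]) hw.2
    rw [if_neg (by rintro rfl; exact ho hwS)]
    refine ih w _ hwS (List.mem_cons_of_mem _ hb) fun x hx => ?_
    rw [used_cons G v w x E hw.1 hw.2]
    have := hp x hx
    have hvw := hw.1.ne
    by_cases h1 : x = v
    · rw [if_pos (Or.inl h1), Nat.odd_add_one, this]
      subst h1
      simp [hvw]
    by_cases h2 : x = w
    · rw [if_pos (Or.inr h2), Nat.odd_add_one, this]
      simp [h1, h2, hvw.symm]
    · rw [if_neg (by tauto), add_zero, this]
      simp [h1, h2]

theorem prB_le (o b : V) (S : Set V) (ho : o ∉ S) (hb : b ∈ S) (hob : G.Adj o b)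
    (hdeg : ∀ x, Even (G.neighborFinset x).card)
    (hS : ∀ x ∈ S, ∀ y, G.Adj x y → y ∈ S ∨ (x = b ∧ y = o)) (n : ℕ) :
    ret G o n o [] ≤ 1 - 1 / (G.neighborFinset o).card := by
  have hbN : b ∈ G.neighborFinset o := by simpa using hob
  have hc : (1 : ℝ) ≤ (G.neighborFinset o).card := by exact_mod_cast card_pos.2 ⟨b, hbN⟩
  cases n with
  | zero =>
    simp only [ret, sub_nonneg]
    exact div_le_one_of_le₀ hc (by linarith)
  | succ n =>
    have hf : fresh G o [] = G.neighborFinset o := by simp [fresh]
    have hn : next G o [] = G.neighborFinset o := by simp [next, hf]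
    simp only [ret, hn]
    rw [← add_sum_erase _ _ hbN, if_neg hob.ne.symm, ret_zero G o b S ho hdeg hS n b _ hb (by simp)]
    · have h1 : (∑ w ∈ (G.neighborFinset o).erase b,
          if w = o then (1 : ℝ) else ret G o n w [s(o, w)]) ≤ (G.neighborFinset o).card - 1 := by
        refine (sum_le_card_nsmul _ _ 1 fun w _ => ?_).trans ?_
        · split_ifs
          · exact le_rfl
          · exact (ret_bounds G o n _ _).2
        · rw [card_erase_of_mem hbN, nsmul_eq_mul, mul_one, Nat.cast_sub (card_pos.2 ⟨b, hbN⟩)]
          simp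
      rw [zero_add, div_le_iff₀ (by linarith)]
      refine h1.trans (le_of_eq ?_)
      field_simp
    · intro x hx
      rw [used_cons G o b x [] hob (by simp)]
      have hxo : x ≠ o := by rintro rfl; exact ho hx
      by_cases h : x = b <;> simp [used, h, hxo]

/-! ### The example: the Cayley graph of `F(a, b)` for `a^{±1}, a^{±2}, b^{±1}` -/

abbrev F : Type := FreeGroup Bool

def L (x y : Bool) : F := FreeGroup.mk [(x, y)]

def gens : Finset F := {L true true, L true false, L true true * L true true,
  L true false * L true false, L false true, L false false}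

theorem L_inv (x : Bool) : (L x true)⁻¹ = L x false := by
  simp [L, FreeGroup.inv_mk, FreeGroup.invRev]

theorem L_inv' (x : Bool) : (L x false)⁻¹ = L x true := by rw [← L_inv, inv_inv]

theorem gens_inv : ∀ s ∈ gens, s⁻¹ ∈ gens := by
  intro s hs
  simp only [gens, mem_insert, mem_singleton] at hs ⊢
  rcases hs with rfl | rfl | rfl | rfl | rfl | rfl <;> simp [L_inv, L_inv']

theorem one_notMem : (1 : F) ∉ gens := by decide

theorem card_gens : gens.card = 6 := by decide

def Cay : SimpleGraph F where
  Adj g h := h * g⁻¹ ∈ gens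
  symm := ⟨fun g h H => by simpa using gens_inv _ H⟩
  loopless := ⟨fun g H => one_notMem (by simpa using H)⟩

theorem adj_mul (s g : F) (hs : s ∈ gens) : Cay.Adj g (s * g) := by
  simpa [Cay] using hs

noncomputable instance : Cay.LocallyFinite := fun v =>
  Fintype.ofFinset (gens.image (· * v)) fun w => by
    simp only [mem_image, SimpleGraph.mem_neighborSet, Cay]
    constructor
    · rintro ⟨s, hs, rfl⟩; simpa using hs
    · intro h; exact ⟨_, h, by simp⟩

theorem nbr (v : F) : Cay.neighborFinset v = gens.image (· * v) := by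
  ext w
  simp only [SimpleGraph.mem_neighborFinset, mem_image, Cay]
  constructor
  · intro h; exact ⟨_, h, by simp⟩
  · rintro ⟨s, hs, rfl⟩; simpa using hs

theorem deg (v : F) : (Cay.neighborFinset v).card = 6 := by
  rw [nbr, card_image_of_injective _ (mul_left_injective v), card_gens]

theorem L_mem (x y : Bool) : L x y ∈ gens := by cases x <;> cases y <;> simp [gens]

theorem conn : Cay.Connected := by
  have key : ∀ g h : F, Cay.Reachable h (g * h) := by
    intro g
    induction g using FreeGroup.induction_on with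
    | C1 => intro h; simp
    | of x => intro h; exact (adj_mul _ h (L_mem x true)).reachable
    | inv_of x _ => intro h; exact (adj_mul _ h (gens_inv _ (L_mem x true))).reachable
    | mul x y hx hy => intro h; rw [mul_assoc]; exact (hy h).trans (hx _)
  refine ⟨fun g h => ?_⟩
  simpa using key (h * g⁻¹) g

def side : Set F := {g | g.toWord.getLast? = some (false, true)}

theorem step (x y : Bool) (g : F) (hg : g ∈ side) :
    L x y * g ∈ side ∨ (g = L false true ∧ x = false ∧ y = false) := by
  have h1 : (L x y * g).toWord = FreeGroup.reduce ((x, y) :: g.toWord) := by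
    conv_lhs => rw [← FreeGroup.mk_toWord (x := g), L, FreeGroup.mul_mk, FreeGroup.toWord_mk]
    rfl
  simp only [side, Set.mem_setOf_eq] at hg ⊢
  rw [h1, FreeGroup.reduce.cons, FreeGroup.reduce_toWord]
  have h2 := FreeGroup.mk_toWord (x := g)
  rcases hw : g.toWord with _ | ⟨c, l⟩
  · rw [hw] at hg; simp at hg
  · rw [hw] at hg h2
    simp only
    split_ifs with h3
    · rcases l with _ | ⟨d, l⟩
      · right
        simp only [List.getLast?_singleton, Option.some.injEq] at hg
        subst hg
        exact ⟨h2.symm, by simpa using h3.1, by simpa using h3.2⟩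
      · left
        simpa [List.getLast?_cons_cons] using hg
    · left
      simpa [List.getLast?_cons_cons] using hg

theorem side_adj : ∀ x ∈ side, ∀ y, Cay.Adj x y → y ∈ side ∨ (x = L false true ∧ y = 1) := by
  intro x hx y hxy
  have : y ∈ Cay.neighborFinset x := by simpa using hxy
  rw [nbr, mem_image] at this
  obtain ⟨s, hs, rfl⟩ := this
  have ha : ∀ c g, g ∈ side → L true c * g ∈ side := fun c g hg =>
    (step true c g hg).resolve_right (by simp)
  simp only [gens, mem_insert, mem_singleton] at hs
  rcases hs with rfl | rfl | rfl | rfl | rfl | rfl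
  · exact Or.inl (ha _ _ hx)
  · exact Or.inl (ha _ _ hx)
  · rw [mul_assoc]; exact Or.inl (ha _ _ (ha _ _ hx))
  · rw [mul_assoc]; exact Or.inl (ha _ _ (ha _ _ hx))
  · exact Or.inl ((step false true x hx).resolve_right (by simp))
  · rcases step false false x hx with h | ⟨rfl, -⟩
    · exact Or.inl h
    · exact Or.inr ⟨rfl, by rw [← L_inv, inv_mul_cancel]⟩

theorem upper (n : ℕ) : ret Cay 1 n 1 [] ≤ 5 / 6 := by
  have := prB_le Cay 1 (L false true) side (by simp [side]) (by show _ = _; decide)
    (by simpa using adj_mul _ 1 (L_mem false true)) (fun x => by rw [deg]; decide) side_adj n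
  rw [deg] at this
  norm_num at this ⊢
  exact this

theorem lower : 0 < ret Cay 1 3 1 [] := by
  refine ret_pos Cay 1 2 1 (L true true) [] ?_ (Or.inr ?_)
  · rw [fresh, nbr]; decide
  refine ret_pos Cay 1 1 _ (L true true * L true true) _ ?_ (Or.inr ?_)
  · rw [fresh, nbr]; decide
  refine ret_pos Cay 1 0 _ 1 _ ?_ (Or.inl rfl)
  rw [fresh, nbr]; decide

end H11.GRW

namespace Pool.Agent.Results.MP_3fb035_pr.NoLawB

open H11.GRW

theorem result :
    ∃ (V : Type) (_ : DecidableEq V) (G : SimpleGraph V) (_ : G.LocallyFinite) (o : V),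
      Infinite V ∧ G.Connected ∧ (∀ u v : V, ∃ φ : G ≃g G, φ u = v) ∧
        0 < prB G o ∧ prB G o < 1 := by
  have hbdd : BddAbove (Set.range fun n => ret Cay 1 n 1 []) :=
    ⟨5 / 6, by rintro _ ⟨n, rfl⟩; exact upper n⟩
  refine ⟨F, inferInstance, Cay, inferInstance, 1, inferInstance, conn, fun u v => ?_,
    lt_of_lt_of_le lower (le_ciSup hbdd 3), lt_of_le_of_lt (ciSup_le upper) (by norm_num)⟩
  refine ⟨⟨Equiv.mulRight (u⁻¹ * v), ?_⟩, by simp⟩
  intro a b
  simp [Cay, mul_assoc]

end Pool.Agent.Results.MP_3fb035_pr.NoLawB
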